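import Mathlib

/-!
The bucket game (Cinderella against the Stepmother) on a finite graph.
-/

namespace Pool.Agent.Q175.BK

open Finset

variable {V : Type} [Fintype V] [DecidableEq V]

/-- A move of the Stepmother: nonnegative amounts of water with total one. -/
def ValidMove (a : V → ℝ) : Prop := (∀ v, 0 ≤ a v) ∧ ∑ v, a v = 1

/-- A set of pairwise non-adjacent vertices. -/
def Indep (G : SimpleGraph V) (I : Finset V) : Prop := ∀ u ∈ I, ∀ v ∈ I, ¬ G.Adj u v

/-- The contents after the buckets in `I` are emptied. -/
def drain (I : Finset V) (x : V → ℝ) : V → ℝ := fun v => if v ∈ I then 0 else x v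

/-- A strategy of Cinderella: in round `t` it sees the moves `a 0, ..., a t` of the Stepmother
and answers with a set of vertices. -/
abbrev Strategy (V : Type) : Type := (t : ℕ) → (Fin (t + 1) → V → ℝ) → Finset V

/-- The contents at the beginning of round `t`, if Cinderella plays the strategy `s` and the
Stepmother plays `a 0, a 1, ...`. -/
def content (s : Strategy V) (a : ℕ → V → ℝ) : ℕ → V → ℝ
  | 0 => 0
  | t + 1 => drain (s t fun i => a i) (content s a t + a t)

/-- With capacity `b` Cinderella can keep the game running forever. -/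
def Wins (G : SimpleGraph V) (b : ℝ) : Prop :=
  ∃ s : Strategy V, (∀ t h, Indep G (s t h)) ∧
    ∀ a : ℕ → V → ℝ, (∀ t, ValidMove (a t)) → ∀ t v, content s a t v + a t v ≤ b

/-- The bucket number. -/
noncomputable def bucket (G : SimpleGraph V) : ℝ := sInf {b : ℝ | 0 < b ∧ Wins G b} - 1

/-- `I` is an independent set of maximal total content. -/
def GreedyChoice (G : SimpleGraph V) (x : V → ℝ) (I : Finset V) : Prop :=
  Indep G I ∧ ∀ J : Finset V, Indep G J → ∑ v ∈ J, x v ≤ ∑ v ∈ I, x v

/-- The contents that can occur at the beginning of a round, when Cinderella plays GREEDY with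
arbitrary ways of breaking ties and the Stepmother plays arbitrarily. -/
inductive Reach (G : SimpleGraph V) : (V → ℝ) → Prop
  | start : Reach G 0
  | round (x a : V → ℝ) (I : Finset V) : Reach G x → ValidMove a → GreedyChoice G (x + a) I →
      Reach G (drain I (x + a))

/-- With capacity `b` no bucket ever overflows when Cinderella plays GREEDY. -/
def GreedySafe (G : SimpleGraph V) (b : ℝ) : Prop :=
  ∀ x a : V → ℝ, Reach G x → ValidMove a → ∀ v, x v + a v ≤ b

/-- The greedy bucket number. -/
noncomputable def gbucket (G : SimpleGraph V) : ℝ := sInf {b : ℝ | 0 < b ∧ GreedySafe G b} - 1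

end Pool.Agent.Q175.BK
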