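import Pool.Agent.Q175.BK.Strat

/-!
Regular graphs without 4-cycles on `r*(r+1)` vertices with `r + 1 = K^2`: expansion, the
independence number of the product with a clique, colouring of small sets.
-/

namespace Pool.Agent.Q175.BK

set_option linter.unusedSectionVars false

open Finset

section rel

variable {W : Type} [Fintype W] [DecidableEq W]

/-- a symmetric irreflexive relation, regular of degree `r`, without 4-cycles -/
structure Nice (R : W → W → Prop) (r K : ℕ) : Prop where
  symm : ∀ x y, R x y → R y x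
  irrefl : ∀ x, ¬ R x x
  deg : ∀ x, ∃ Y : Finset W, (∀ y, y ∈ Y ↔ R x y) ∧ Y.card = r
  codeg : ∀ x x' y y', R x y → R x y' → R x' y → R x' y' → x = x' ∨ y = y'
  card : Fintype.card W = r * (r + 1)
  sq : r + 1 = K * K

open Classical in
/-- indicator -/
noncomputable def e (R : W → W → Prop) (x y : W) : ℕ := if R x y then 1 else 0

variable {R : W → W → Prop} {r K : ℕ}

lemma sum_e (h : Nice R r K) (x : W) : ∑ y, e R x y = r := by
  classical
  obtain ⟨Y, hY, hc⟩ := h.deg x
  unfold e
  rw [← Finset.card_filter, ← hc]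
  congr 1
  ext y
  simp [hY]

lemma sum_ee (h : Nice R r K) (x x' : W) (hne : x ≠ x') (Y : Finset W) :
    ∑ y ∈ Y, e R x y * e R x' y ≤ 1 := by
  classical
  have h1 : ∀ y, e R x y * e R x' y = if R x y ∧ R x' y then 1 else 0 := by
    intro y
    unfold e
    by_cases h1 : R x y <;> by_cases h2 : R x' y <;> simp [h1, h2]
  simp_rw [h1]
  rw [← Finset.card_filter, Finset.card_le_one]
  intro a ha b hb
  rw [mem_filter] at ha hb
  rcases h.codeg x x' a b ha.2.1 hb.2.1 ha.2.2 hb.2.2 with h2 | h2
  · exact absurd h2 hne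
  · exact h2

lemma e_sq (x y : W) : e R x y * e R x y = e R x y := by
  unfold e; split_ifs <;> simp

lemma e_comm (h : Nice R r K) (x y : W) : e R x y = e R y x := by
  unfold e
  congr 1
  exact propext ⟨h.symm x y, h.symm y x⟩

lemma double (h : Nice R r K) (X Y : Finset W) :
    ∑ y ∈ Y, (∑ x ∈ X, e R x y) ^ 2 ≤ ∑ y ∈ Y, ∑ x ∈ X, e R x y + X.card ^ 2 := by
  have h1 : ∀ y, (∑ x ∈ X, e R x y) ^ 2 = ∑ x ∈ X, ∑ x' ∈ X, e R x y * e R x' y := by
    intro y; rw [sq, Finset.sum_mul_sum]
  simp_rw [h1]
  rw [Finset.sum_comm]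
  have h2 : ∀ x ∈ X, ∑ y ∈ Y, ∑ x' ∈ X, e R x y * e R x' y ≤ ∑ y ∈ Y, e R x y + X.card := by
    intro x hx
    rw [Finset.sum_comm, ← Finset.add_sum_erase X _ hx]
    apply Nat.add_le_add
    · simp_rw [e_sq]; exact le_rfl
    · calc ∑ x' ∈ X.erase x, ∑ y ∈ Y, e R x y * e R x' y ≤ ∑ x' ∈ X.erase x, 1 := by
            apply Finset.sum_le_sum
            intro x' hx'
            exact sum_ee h x x' (Finset.ne_of_mem_erase hx').symm Y
        _ ≤ X.card := by
            rw [Finset.sum_const, smul_eq_mul, mul_one]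
            exact Finset.card_le_card (Finset.erase_subset _ _)
  refine le_trans (Finset.sum_le_sum h2) ?_
  rw [Finset.sum_add_distrib, Finset.sum_comm, Finset.sum_const, smul_eq_mul, ← sq]

open Classical in
/-- neighbourhood -/
noncomputable def nbr (R : W → W → Prop) (X : Finset W) : Finset W :=
  univ.filter fun y => ∃ x ∈ X, R x y

lemma mem_nbr (X : Finset W) (y : W) : y ∈ nbr R X ↔ ∃ x ∈ X, R x y := by
  classical
  unfold nbr
  simp

lemma expand (h : Nice R r K) (X : Finset W) :
    X.card * r ^ 2 ≤ (nbr R X).card * (r + X.card) := by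
  rcases Nat.eq_zero_or_pos X.card with h0 | h0
  · simp [h0]
  have h1 : ∑ y ∈ nbr R X, ∑ x ∈ X, e R x y = X.card * r := by
    rw [Finset.sum_comm]
    have : ∀ x ∈ X, ∑ y ∈ nbr R X, e R x y = r := by
      intro x hx
      rw [← sum_e h x]
      apply Finset.sum_subset (subset_univ _)
      intro y _ hy
      unfold e
      rw [if_neg]
      intro hR
      apply hy
      rw [mem_nbr]
      exact ⟨x, hx, hR⟩
    rw [Finset.sum_congr rfl this, Finset.sum_const, smul_eq_mul]
  have h2 := double h X (nbr R X)
  have h3 : (∑ y ∈ nbr R X, ∑ x ∈ X, e R x y) ^ 2 ≤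
      (nbr R X).card * ∑ y ∈ nbr R X, (∑ x ∈ X, e R x y) ^ 2 := sq_sum_le_card_mul_sum_sq
  rw [h1] at h2 h3
  have h4 : (X.card * r) ^ 2 ≤ (nbr R X).card * (X.card * r + X.card ^ 2) :=
    le_trans h3 (Nat.mul_le_mul_left _ h2)
  have h5 : X.card * (X.card * r ^ 2) ≤ X.card * ((nbr R X).card * (r + X.card)) := by
    calc X.card * (X.card * r ^ 2) = (X.card * r) ^ 2 := by ring
      _ ≤ (nbr R X).card * (X.card * r + X.card ^ 2) := h4
      _ = _ := by ring
  exact Nat.le_of_mul_le_mul_left h5 h0

lemma expand_indep (h : Nice R r K) (hK : 1 ≤ K) (X : Finset W)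
    (hX : ∀ x ∈ X, ∀ y ∈ X, ¬ R x y) :
    X.card * K ≤ (nbr R X).card + X.card := by
  have h1 := expand h X
  have hdisj : Disjoint X (nbr R X) := by
    rw [Finset.disjoint_left]
    intro y hy hy2
    rw [mem_nbr] at hy2
    obtain ⟨x, hx, hR⟩ := hy2
    exact hX x hx y hy hR
  have h2 : X.card + (nbr R X).card ≤ r * (r + 1) := by
    rw [← h.card, ← Finset.card_union_of_disjoint hdisj]
    exact Finset.card_le_univ _
  have hsq := h.sq
  generalize X.card = m at *
  generalize (nbr R X).card = n at *
  -- over the integers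
  have hK' : (1 : ℤ) ≤ K := by exact_mod_cast hK
  have h1' : (m : ℤ) * r ^ 2 ≤ n * (r + m) := by exact_mod_cast h1
  have h2' : (m : ℤ) + n ≤ r * (r + 1) := by exact_mod_cast h2
  have hsq' : (r : ℤ) = K * K - 1 := by
    have : (r : ℤ) + 1 = K * K := by exact_mod_cast hsq
    linarith
  have hm : (0 : ℤ) ≤ m := by positivity
  have hn : (0 : ℤ) ≤ n := by positivity
  have hr : (0 : ℤ) ≤ r := by positivity
  have h3 : (m : ℤ) ^ 2 ≤ (r * K) ^ 2 := by
    have h4 : (n : ℤ) * (r + m) ≤ (r * (r + 1) - m) * (r + m) := by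
      apply mul_le_mul_of_nonneg_right (by linarith) (by linarith)
    have h5 : (m : ℤ) * r ^ 2 ≤ (r * (r + 1) - m) * (r + m) := le_trans h1' h4
    have h6 : ((r : ℤ) * K) ^ 2 = r ^ 2 * (r + 1) := by rw [hsq']; ring
    rw [h6]
    nlinarith
  have h4 : (m : ℤ) ≤ r * K := by
    apply abs_le_of_sq_le_sq' h3 (by positivity) |>.2
  rcases Nat.eq_zero_or_pos r with h0 | h0
  · have : (m : ℤ) ≤ 0 := by rw [h0] at h4; simpa using h4
    have hm0 : m = 0 := by omega
    simp [hm0]
  · have h0' : (0 : ℤ) < r := by exact_mod_cast h0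
    have h5 : (r : ℤ) * (m * r) ≤ r * (n * (1 + K)) := by
      calc (r : ℤ) * (m * r) = m * r ^ 2 := by ring
        _ ≤ n * (r + m) := h1'
        _ ≤ n * (r + r * K) := by apply mul_le_mul_of_nonneg_left (by linarith) hn
        _ = _ := by ring
    have h6 : (m : ℤ) * r ≤ n * (1 + K) := le_of_mul_le_mul_left h5 h0'
    have h7 : (m : ℤ) * (K - 1) * (1 + K) ≤ n * (1 + K) := by
      calc (m : ℤ) * (K - 1) * (1 + K) = m * r := by rw [hsq']; ring
        _ ≤ _ := h6
    have h8 : (m : ℤ) * (K - 1) ≤ n := le_of_mul_le_mul_right h7 (by linarith)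
    have h9 : (m : ℤ) * K ≤ n + m := by linarith
    exact_mod_cast h9

/-- independent sets in the product with a clique are small -/
lemma product_indep (h : Nice R r K) (hK : 1 ≤ K) (L : W → Finset (Fin K))
    (hL : ∀ x y, R x y → ∀ i ∈ L x, ∀ j ∈ L y, i = j) :
    ∑ x, (L x).card ≤ Fintype.card W := by
  classical
  set X : Finset W := univ.filter fun x => 1 < (L x).card with hXdef
  have hX : ∀ x ∈ X, ∀ y ∈ X, ¬ R x y := by
    intro x hx y hy hR
    rw [hXdef, mem_filter] at hx hy
    obtain ⟨i, hi⟩ : (L x).Nonempty := Finset.card_pos.1 (by omega)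
    obtain ⟨j, hj, j', hj', hne⟩ := Finset.one_lt_card.1 hy.2
    exact hne ((hL x y hR i hi j hj).symm.trans (hL x y hR i hi j' hj'))
  have hN : ∀ y ∈ nbr R X, L y = ∅ := by
    intro y hy
    rw [mem_nbr] at hy
    obtain ⟨x, hx, hR⟩ := hy
    rw [hXdef, mem_filter] at hx
    obtain ⟨i, hi, i', hi', hne⟩ := Finset.one_lt_card.1 hx.2
    rw [Finset.eq_empty_iff_forall_notMem]
    intro j hj
    exact hne ((hL x y hR i hi j hj).trans (hL x y hR i' hi' j hj).symm)
  have h1 := expand_indep h hK X hX
  have h2 : ∀ x, (L x).card + (if x ∈ X then 1 else 0) + (if x ∈ nbr R X then 1 else 0) ≤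
      (if x ∈ X then K else 0) + 1 := by
    intro x
    by_cases hx : x ∈ X
    · have h3 : x ∉ nbr R X := by
        intro h4
        have h5 := hN x h4
        rw [hXdef, mem_filter, h5] at hx
        simp at hx
      simp only [hx, h3, if_true, if_false]
      have := Finset.card_le_univ (L x)
      rw [Fintype.card_fin] at this
      omega
    · by_cases h3 : x ∈ nbr R X
      · simp [hx, h3, hN x h3]
      · have h4 : (L x).card ≤ 1 := by
          by_contra h5
          exact hx (by rw [hXdef, mem_filter]; exact ⟨mem_univ _, by omega⟩)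
        simp only [hx, h3, if_false]
        omega
  have h3 := Finset.sum_le_sum fun x (_ : x ∈ (univ : Finset W)) => h2 x
  simp only [Finset.sum_add_distrib] at h3
  have h4 : ∑ x : W, (if x ∈ X then 1 else 0) = X.card := by simp
  have h5 : ∑ x : W, (if x ∈ nbr R X then 1 else 0) = (nbr R X).card := by simp
  have h6 : ∑ x : W, (if x ∈ X then K else 0) = X.card * K := by simp
  have h7 : ∑ _x : W, 1 = Fintype.card W := by simp
  rw [h4, h5, h6, h7] at h3
  omega

/-- small sets are degenerate -/
lemma small_colour (h : Nice R r K) (k : ℕ) (hk : 1 ≤ k) (U : Finset W) (hU : U.card ≤ k * k) :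
    ∃ c : W → ℕ, (∀ x, c x < k + 1) ∧ ∀ x ∈ U, ∀ y ∈ U, R x y → c x ≠ c y := by
  classical
  induction hn : U.card generalizing U with
  | zero =>
    refine ⟨fun _ => 0, fun _ => Nat.succ_pos k, ?_⟩
    intro x hx
    rw [Finset.card_eq_zero] at hn
    rw [hn] at hx; simp at hx
  | succ n ih =>
    -- a vertex of small degree
    have hex : ∃ x ∈ U, ∑ y ∈ U, e R x y ≤ k := by
      by_contra hcon
      push Not at hcon
      have h1 := double h U U
      have h2 : ∀ y ∈ U, (k + 1) * ∑ x ∈ U, e R x y ≤ (∑ x ∈ U, e R x y) ^ 2 := by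
        intro y hy
        have h3 := hcon y hy
        have h4 : ∑ x ∈ U, e R x y = ∑ x ∈ U, e R y x :=
          Finset.sum_congr rfl fun x _ => e_comm h x y
        rw [h4, sq]
        exact Nat.mul_le_mul_right _ h3
      have h3 := Finset.sum_le_sum h2
      rw [← Finset.mul_sum] at h3
      have h4 : (k + 1) * U.card ≤ ∑ y ∈ U, ∑ x ∈ U, e R x y := by
        rw [mul_comm, ← smul_eq_mul, ← Finset.sum_const]
        apply Finset.sum_le_sum
        intro y hy
        have h3 := hcon y hy
        have h4 : ∑ x ∈ U, e R x y = ∑ x ∈ U, e R y x :=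
          Finset.sum_congr rfl fun x _ => e_comm h x y
        rw [h4]; exact h3
      generalize (∑ y ∈ U, ∑ x ∈ U, e R x y) = S at *
      have h5 : k * S ≤ U.card ^ 2 := by
        have : (k + 1) * S ≤ S + U.card ^ 2 := le_trans h3 h1
        have e1 : (k + 1) * S = k * S + S := by ring
        omega
      have h6 : k * ((k + 1) * U.card) ≤ U.card ^ 2 := le_trans (Nat.mul_le_mul_left _ h4) h5
      have h7 : U.card * (k * (k + 1)) ≤ U.card * U.card := by
        calc U.card * (k * (k + 1)) = k * ((k + 1) * U.card) := by ring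
          _ ≤ U.card ^ 2 := h6
          _ = _ := by ring
      have h8 : k * (k + 1) ≤ U.card := Nat.le_of_mul_le_mul_left h7 (by omega)
      have h9 : k * (k + 1) = k * k + k := by ring
      omega
    obtain ⟨x, hx, hdeg⟩ := hex
    have hcard : (U.erase x).card = n := by rw [Finset.card_erase_of_mem hx]; omega
    obtain ⟨c, hc1, hc2⟩ := ih (U.erase x) (by omega) hcard
    -- a free colour
    have hdeg' : ((U.filter fun y => R x y).image c).card ≤ k := by
      refine le_trans Finset.card_image_le ?_
      rw [Finset.card_filter]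
      refine le_trans (le_of_eq ?_) hdeg
      apply Finset.sum_congr rfl
      intro y _
      unfold e; congr
    obtain ⟨a, ha1, ha2⟩ : ∃ a ∈ range (k + 1), a ∉ (U.filter fun y => R x y).image c := by
      apply Finset.exists_mem_notMem_of_card_lt_card
      rw [card_range]; omega
    refine ⟨Function.update c x a, ?_, ?_⟩
    · intro y
      by_cases hy : y = x
      · rw [hy, Function.update_self]; exact mem_range.1 ha1
      · rw [Function.update_of_ne hy]; exact hc1 y
    · intro y hy z hz hR
      by_cases hyx : y = x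
      · have hzx : z ≠ x := by
          intro hzx
          rw [hyx, hzx] at hR
          exact h.irrefl x hR
        rw [hyx, Function.update_self, Function.update_of_ne hzx]
        intro hac
        apply ha2
        rw [mem_image]
        exact ⟨z, mem_filter.2 ⟨hz, by rw [← hyx]; exact hR⟩, hac.symm⟩
      · by_cases hzx : z = x
        · rw [hzx, Function.update_self, Function.update_of_ne hyx]
          intro hac
          apply ha2
          rw [mem_image]
          exact ⟨y, mem_filter.2 ⟨hy, by rw [← hzx]; exact h.symm _ _ hR⟩, hac⟩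
        · rw [Function.update_of_ne hyx, Function.update_of_ne hzx]
          exact hc2 y (mem_erase.2 ⟨hyx, hy⟩) z (mem_erase.2 ⟨hzx, hz⟩) hR

end rel

section field

variable (F : Type) [Field F] [Fintype F] [DecidableEq F] [CharP F 2]

/-- the polarity graph of the plane, without the absolute points -/
def Pol (x y : Fˣ × F) : Prop := x.2 + y.2 = (x.1 : F) * y.1

lemma pol_nice (K : ℕ) (hF : Fintype.card F = K * K) :
    Nice (Pol F) (Fintype.card F - 1) K where
  symm := by
    intro x y h
    unfold Pol at *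
    rw [add_comm, h, mul_comm]
  irrefl := by
    intro x h
    unfold Pol at h
    rw [CharTwo.add_self_eq_zero] at h
    exact mul_ne_zero (Units.ne_zero _) (Units.ne_zero _) h.symm
  deg := by
    intro x
    refine ⟨univ.image fun c : Fˣ => (c, (x.1 : F) * c - x.2), ?_, ?_⟩
    · intro y
      rw [mem_image]
      unfold Pol
      constructor
      · rintro ⟨c, _, rfl⟩
        simp
      · intro h
        refine ⟨y.1, mem_univ _, ?_⟩
        rw [← h]
        simp
    · rw [Finset.card_image_of_injective, Finset.card_univ, Fintype.card_units]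
      intro c c' h
      exact (Prod.ext_iff.1 h).1
  codeg := by
    intro x x' y y' h1 h2 h3 h4
    unfold Pol at *
    have h5 : ((x.1 : F) - x'.1) * ((y.1 : F) - y'.1) = 0 := by
      linear_combination -h1 + h2 + h3 - h4
    rcases mul_eq_zero.1 h5 with h6 | h6
    · left
      have h7 : x.1 = x'.1 := Units.ext (sub_eq_zero.1 h6)
      apply Prod.ext h7
      rw [h7] at h1
      linear_combination h1 - h3
    · right
      have h7 : y.1 = y'.1 := Units.ext (sub_eq_zero.1 h6)
      apply Prod.ext h7
      rw [h7] at h1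
      linear_combination h1 - h2
  card := by
    rw [Fintype.card_prod, Fintype.card_units]
    have : 0 < Fintype.card F := Fintype.card_pos
    congr 1
    omega
  sq := by
    have : 0 < Fintype.card F := Fintype.card_pos
    omega

end field

end Pool.Agent.Q175.BK
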