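import Pool.Agent.Q175.BK.Rel

/-!
The cone over the product of a clique with a nice graph: Cinderella wins with capacity 72, but
GREEDY needs a large capacity.
-/

namespace Pool.Agent.Q175.BK

set_option linter.unusedSectionVars false

open Finset

section greedy

variable {V : Type} [Fintype V] [DecidableEq V]

lemma sum_drain (I : Finset V) (x : V → ℝ) :
    ∑ v, drain I x v = ∑ v, x v - ∑ v ∈ I, x v := by
  have h1 : ∀ v, drain I x v = x v - if v ∈ I then x v else 0 := by
    intro v; unfold drain; split_ifs <;> simp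
  simp_rw [h1, Finset.sum_sub_distrib]
  simp

lemma reach_bound [Nonempty V] (G : SimpleGraph V) (x : V → ℝ) (h : Reach G x) :
    (∀ v, 0 ≤ x v) ∧ ∑ v, x v ≤ Fintype.card V - 1 := by
  have hn : (1 : ℝ) ≤ Fintype.card V := by
    have : 0 < Fintype.card V := Fintype.card_pos
    exact_mod_cast this
  induction h with
  | start =>
    refine ⟨fun v => le_rfl, ?_⟩
    simp only [Pi.zero_apply, Finset.sum_const_zero]
    linarith
  | round x a I hx ha hI ih =>
    obtain ⟨h0, h1⟩ := ih
    have hy : ∀ v, 0 ≤ (x + a) v := fun v => add_nonneg (h0 v) (ha.1 v)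
    refine ⟨?_, ?_⟩
    · intro v
      unfold drain
      split_ifs
      · exact le_rfl
      · exact hy v
    · rw [sum_drain]
      have hs : ∑ v, (x + a) v ≤ Fintype.card V := by
        simp only [Pi.add_apply, Finset.sum_add_distrib, ha.2]
        linarith
      have h2 : ∀ v, (x + a) v ≤ ∑ w ∈ I, (x + a) w := by
        intro v
        have := hI.2 {v} (by
          intro u hu w hw
          rw [mem_singleton] at hu hw
          rw [hu, hw]; exact G.loopless.irrefl v)
        rwa [Finset.sum_singleton] at this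
      have h3 : ∑ v, (x + a) v ≤ Fintype.card V * ∑ w ∈ I, (x + a) w := by
        calc ∑ v, (x + a) v ≤ ∑ _v : V, ∑ w ∈ I, (x + a) w := Finset.sum_le_sum fun v _ => h2 v
          _ = _ := by rw [Finset.sum_const, nsmul_eq_mul, Finset.card_univ]
      generalize (∑ v, (x + a) v) = S at *
      generalize (∑ w ∈ I, (x + a) w) = s at *
      generalize (Fintype.card V : ℝ) = n at *
      have h4 : n * (S - s) ≤ n * (n - 1) := by nlinarith
      exact le_of_mul_le_mul_left h4 (by linarith)

lemma greedySafe_card [Nonempty V] (G : SimpleGraph V) : GreedySafe G (Fintype.card V) := by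
  intro x a hx ha v
  obtain ⟨h0, h1⟩ := reach_bound G x hx
  have h2 : x v ≤ ∑ w, x w := Finset.single_le_sum (f := x) (fun i _ => h0 i) (mem_univ v)
  have h3 := valid_le_one a ha v
  linarith

end greedy

section graph

variable {W : Type} [Fintype W] [DecidableEq W] {R : W → W → Prop} {r K : ℕ}

/-- adjacency in the cone over the product of the clique on `Fin K` with `R` -/
def coneAdj (R : W → W → Prop) (K : ℕ) : Option (Fin K × W) → Option (Fin K × W) → Prop
  | none, none => False
  | none, some _ => True
  | some _, none => True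
  | some x, some y => x.1 ≠ y.1 ∧ R x.2 y.2

/-- the cone over the product of a clique with a nice graph -/
def cone (h : Nice R r K) : SimpleGraph (Option (Fin K × W)) where
  Adj := coneAdj R K
  symm := ⟨by
    intro u v huv
    match u, v, huv with
    | none, none, huv => exact huv
    | none, some _, _ => trivial
    | some _, none, _ => trivial
    | some x, some y, huv => exact ⟨huv.1.symm, h.symm _ _ huv.2⟩⟩
  loopless := ⟨by
    intro u hu
    match u, hu with
    | none, hu => exact hu
    | some x, hu => exact hu.1 rfl⟩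

lemma cone_sparse (h : Nice R r K) : Sparse (cone h) := by
  intro j U hU
  have h1 : (1 : ℕ) ≤ 4 * 8 ^ j := by have : 0 < 8 ^ j := by positivity
                                      omega
  -- the projection
  let U' : Finset W := (U.eraseNone).image Prod.snd
  have hU' : U'.card ≤ (4 * 8 ^ j) * (4 * 8 ^ j) := by
    have h2 : (U.eraseNone).card ≤ U.card := by
      rw [← Finset.card_map Function.Embedding.some, Finset.map_some_eraseNone]
      exact Finset.card_le_card (Finset.erase_subset _ _)
    have h3 : (4 * 8 ^ j) * (4 * 8 ^ j) = 16 * 64 ^ j := by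
      have : (64 : ℕ) ^ j = 8 ^ j * 8 ^ j := by rw [← mul_pow]; norm_num
      rw [this]; ring
    rw [h3]
    exact le_trans Finset.card_image_le (le_trans h2 hU)
  obtain ⟨c, hc1, hc2⟩ := small_colour h (4 * 8 ^ j) h1 U' hU'
  refine ⟨fun v => match v with | none => 4 * 8 ^ j + 1 | some x => c x.2, ?_, ?_⟩
  · intro v _
    have h2 : (1 : ℕ) ≤ 8 ^ j := Nat.one_le_two_pow.trans (Nat.pow_le_pow_left (by norm_num) j)
    match v with
    | none => show 4 * 8 ^ j + 1 < 8 * 8 ^ j; omega
    | some x => have := hc1 x.2; show c x.2 < 8 * 8 ^ j; omega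
  · intro u hu v hv huv
    match u, v, hu, hv, huv with
    | none, none, _, _, huv => exact absurd huv (fun h => h)
    | none, some y, _, _, _ =>
      show 4 * 8 ^ j + 1 ≠ c y.2
      have := hc1 y.2; omega
    | some x, none, _, _, _ =>
      show c x.2 ≠ 4 * 8 ^ j + 1
      have := hc1 x.2; omega
    | some x, some y, hu, hv, huv =>
      show c x.2 ≠ c y.2
      refine hc2 x.2 ?_ y.2 ?_ huv.2
      · exact mem_image.2 ⟨x, Finset.mem_eraseNone.2 hu, rfl⟩
      · exact mem_image.2 ⟨y, Finset.mem_eraseNone.2 hv, rfl⟩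

/-- level `l` on the classes `i` with `i + t < K`, and `z` in the apex -/
noncomputable def st (W : Type) [Fintype W] (K t : ℕ) (l z : ℝ) : Option (Fin K × W) → ℝ
  | none => z
  | some x => if (x.1 : ℕ) + t < K then l / Fintype.card W else 0

/-- the class `i` -/
def cls (W : Type) [Fintype W] (K i : ℕ) : Finset (Option (Fin K × W)) :=
  ((univ : Finset (Fin K × W)).filter fun x => (x.1 : ℕ) = i).map Function.Embedding.some

lemma mem_cls (i : ℕ) (v : Option (Fin K × W)) :
    v ∈ cls W K i ↔ ∃ x : Fin K × W, (x.1 : ℕ) = i ∧ some x = v := by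
  unfold cls
  simp

lemma cls_card (i : ℕ) (hi : i < K) : (cls W K i).card = Fintype.card W := by
  unfold cls
  rw [Finset.card_map]
  have : (univ : Finset (Fin K × W)).filter (fun x => (x.1 : ℕ) = i) =
      ({(⟨i, hi⟩ : Fin K)} : Finset (Fin K)) ×ˢ (univ : Finset W) := by
    ext x
    rw [Finset.mem_product, mem_singleton, mem_filter]
    simp [Fin.ext_iff]
  rw [this, Finset.card_product]
  simp

lemma indep_cls (h : Nice R r K) (i : ℕ) : Indep (cone h) (cls W K i) := by
  intro u hu v hv huv
  rw [mem_cls] at hu hv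
  obtain ⟨x, hx, rfl⟩ := hu
  obtain ⟨y, hy, rfl⟩ := hv
  exact huv.1 (Fin.ext (hx.trans hy.symm))

lemma indep_card (h : Nice R r K) (hK : 1 ≤ K) (J : Finset (Option (Fin K × W)))
    (hJ : Indep (cone h) J) (hn : none ∉ J) : J.card ≤ Fintype.card W := by
  have h1 := product_indep h hK (fun x => univ.filter fun i : Fin K => some (i, x) ∈ J) (by
    intro x y hR i hi j hj
    rw [mem_filter] at hi hj
    by_contra hne
    exact hJ _ hi.2 _ hj.2 ⟨hne, hR⟩)
  refine le_trans (le_of_eq ?_) h1
  have h2 : J = ((univ : Finset (Fin K × W)).filter fun x => some x ∈ J).map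
      Function.Embedding.some := by
    ext v
    match v with
    | none => simp [hn]
    | some x => simp
  rw [h2, Finset.card_map]
  have h3 : ∀ x : W, (univ.filter fun i : Fin K => some (i, x) ∈ J).card =
      ((((univ : Finset (Fin K × W)).filter fun x => some x ∈ J)).filter
        fun y => y.2 = x).card := by
    intro x
    rw [← Finset.card_image_of_injective (univ.filter fun i : Fin K => some (i, x) ∈ J)
      (f := fun i => (i, x)) (fun a b hab => (Prod.ext_iff.1 hab).1)]
    congr 1
    ext ⟨i, y⟩
    simp only [mem_image, mem_filter, mem_univ, true_and, Prod.mk.injEq]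
    constructor
    · rintro ⟨a, ha, rfl, rfl⟩
      exact ⟨ha, rfl⟩
    · rintro ⟨ha, rfl⟩
      exact ⟨i, ha, rfl, rfl⟩
  rw [← h2]
  simp_rw [h3]
  exact Finset.card_eq_sum_card_fiberwise (fun _ _ => mem_univ _)

lemma sum_le_of_indep (h : Nice R r K) (hK : 1 ≤ K) [Nonempty W] (t : ℕ) (l z : ℝ) (hl : 0 ≤ l)
    (hz : z ≤ l) (J : Finset (Option (Fin K × W))) (hJ : Indep (cone h) J) :
    ∑ v ∈ J, st W K t l z v ≤ l := by
  by_cases hn : none ∈ J
  · have h1 : J = {none} := by
      ext v
      rw [mem_singleton]
      constructor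
      · intro hv
        match v, hv with
        | none, _ => rfl
        | some x, hv => exact absurd trivial (hJ none hn (some x) hv)
      · rintro rfl; exact hn
    rw [h1, Finset.sum_singleton]
    exact hz
  · have h1 : ∀ v ∈ J, st W K t l z v ≤ l / Fintype.card W := by
      intro v hv
      match v, hv with
      | none, hv => exact absurd hv hn
      | some x, _ =>
        show (if (x.1 : ℕ) + t < K then l / Fintype.card W else 0) ≤ _
        split_ifs
        · exact le_rfl
        · positivity
    have h2 := Finset.sum_le_sum h1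
    rw [Finset.sum_const, nsmul_eq_mul] at h2
    have h3 := indep_card h hK J hJ hn
    have h4 : (0 : ℝ) < Fintype.card W := by exact_mod_cast Fintype.card_pos
    refine le_trans h2 ?_
    calc (J.card : ℝ) * (l / Fintype.card W) ≤ Fintype.card W * (l / Fintype.card W) := by
          gcongr
      _ = l := by field_simp

lemma sum_cls [Nonempty W] (t : ℕ) (ht : t < K) (l z : ℝ) :
    ∑ v ∈ cls W K (K - 1 - t), st W K t l z v = l := by
  have h1 : ∀ v ∈ cls W K (K - 1 - t), st W K t l z v = l / Fintype.card W := by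
    intro v hv
    rw [mem_cls] at hv
    obtain ⟨x, hx, rfl⟩ := hv
    show (if (x.1 : ℕ) + t < K then l / Fintype.card W else 0) = _
    rw [if_pos (by omega)]
  rw [Finset.sum_congr rfl h1, Finset.sum_const, cls_card _ (by omega), nsmul_eq_mul]
  have h4 : (0 : ℝ) < Fintype.card W := by exact_mod_cast Fintype.card_pos
  field_simp

lemma greedy_cls (h : Nice R r K) [Nonempty W] (t : ℕ) (ht : t < K) (l z : ℝ) (hl : 0 ≤ l)
    (hz : z ≤ l) : GreedyChoice (cone h) (st W K t l z) (cls W K (K - 1 - t)) := by
  refine ⟨indep_cls h _, fun J hJ => ?_⟩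
  rw [sum_cls t ht]
  exact sum_le_of_indep h (by omega) t l z hl hz J hJ

lemma drain_cls (t : ℕ) (ht : t < K) (l z : ℝ) :
    drain (cls W K (K - 1 - t)) (st W K t l z) = st W K (t + 1) l z := by
  funext v
  unfold drain
  match v with
  | none =>
    rw [if_neg]
    · rfl
    · rw [mem_cls]; rintro ⟨x, _, hx⟩; simp at hx
  | some x =>
    show (if some x ∈ cls W K (K - 1 - t) then (0 : ℝ) else
      if (x.1 : ℕ) + t < K then l / Fintype.card W else 0) =
      if (x.1 : ℕ) + (t + 1) < K then l / Fintype.card W else 0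
    by_cases hx : some x ∈ cls W K (K - 1 - t)
    · rw [if_pos hx]
      rw [mem_cls] at hx
      obtain ⟨y, hy, hxy⟩ := hx
      rw [Option.some.injEq] at hxy
      rw [hxy] at hy
      rw [if_neg (by omega)]
    · rw [if_neg hx]
      have h1 : (x.1 : ℕ) ≠ K - 1 - t := by
        intro h2
        exact hx ((mem_cls _ _).2 ⟨x, h2, rfl⟩)
      have h2 : ((x.1 : ℕ) + t < K) ↔ ((x.1 : ℕ) + (t + 1) < K) := by omega
      simp only [h2]

lemma st_add (t : ℕ) (l l' z z' : ℝ) :
    st W K t l z + st W K t l' z' = st W K t (l + l') (z + z') := by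
  funext v
  match v with
  | none => rfl
  | some x =>
    show (if (x.1 : ℕ) + t < K then l / Fintype.card W else (0 : ℝ)) +
      (if (x.1 : ℕ) + t < K then l' / Fintype.card W else 0) =
      if (x.1 : ℕ) + t < K then (l + l') / Fintype.card W else 0
    split_ifs
    · rw [add_div]
    · simp

lemma sum_st [Nonempty W] (t : ℕ) (ht : t ≤ K) (l z : ℝ) :
    ∑ v, st W K t l z v = z + (K - t : ℕ) * l := by
  rw [Fintype.sum_option]
  congr 1
  rw [Fintype.sum_prod_type]
  have h4 : (0 : ℝ) < Fintype.card W := by exact_mod_cast Fintype.card_pos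
  have h1 : ∀ i : Fin K, ∑ x : W, st W K t l z (some (i, x)) =
      if (i : ℕ) + t < K then l else 0 := by
    intro i
    show ∑ x : W, (if (i : ℕ) + t < K then l / Fintype.card W else (0 : ℝ)) = _
    split_ifs
    · rw [Finset.sum_const, nsmul_eq_mul, Finset.card_univ]
      field_simp
    · simp
  simp_rw [h1]
  rw [Fin.sum_univ_eq_sum_range (fun i => if i + t < K then l else 0) K,
    ← Finset.sum_filter, Finset.sum_const, nsmul_eq_mul]
  have h5 : (range K).filter (fun i => i + t < K) = range (K - t) := by
    ext i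
    rw [mem_filter, mem_range, mem_range]
    omega
  rw [h5, card_range]

/-- the level after `t` rounds -/
noncomputable def lev (K t : ℕ) : ℝ := ∑ s ∈ range t, 1 / ((K - s : ℕ) : ℝ)

lemma lev_nonneg (K t : ℕ) : 0 ≤ lev K t := Finset.sum_nonneg fun _ _ => by positivity

lemma reach_one (h : Nice R r K) [Nonempty W] (t : ℕ) (ht : t ≤ K) :
    Reach (cone h) (st W K t (lev K t) 0) := by
  induction t with
  | zero =>
    have : st W K 0 (lev K 0) 0 = 0 := by
      funext v
      match v with
      | none => rfl
      | some x =>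
        show (if (x.1 : ℕ) + 0 < K then lev K 0 / Fintype.card W else (0 : ℝ)) = 0
        simp [lev]
    rw [this]
    exact Reach.start
  | succ t ih =>
    have h1 := ih (by omega)
    have h2 : ValidMove (st W K t (1 / ((K - t : ℕ) : ℝ)) 0) := by
      refine ⟨?_, ?_⟩
      · intro v
        match v with
        | none => exact le_rfl
        | some x =>
          show (0 : ℝ) ≤ if (x.1 : ℕ) + t < K then 1 / ((K - t : ℕ) : ℝ) / Fintype.card W else 0
          positivity
      · rw [sum_st t (by omega), zero_add]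
        have : ((K - t : ℕ) : ℝ) ≠ 0 := by
          have : K - t ≠ 0 := by omega
          exact_mod_cast this
        field_simp
    have h3 : st W K t (lev K t) 0 + st W K t (1 / ((K - t : ℕ) : ℝ)) 0 =
        st W K t (lev K (t + 1)) 0 := by
      rw [st_add, add_zero]
      congr 1
      unfold lev
      rw [Finset.sum_range_succ]
    have h4 := Reach.round _ _ (cls W K (K - 1 - t)) h1 h2 (by
      rw [h3]
      exact greedy_cls h t (by omega) _ _ (lev_nonneg _ _) (lev_nonneg _ _))
    rw [h3, drain_cls t (by omega)] at h4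
    exact h4

lemma valid_apex (t : ℕ) (ht : t ≤ K) [Nonempty W] : ValidMove (st W K t 0 1) := by
  refine ⟨?_, ?_⟩
  · intro v
    match v with
    | none => exact zero_le_one
    | some x =>
      show (0 : ℝ) ≤ if (x.1 : ℕ) + t < K then 0 / (Fintype.card W : ℝ) else 0
      simp
  · rw [sum_st t ht, mul_zero, add_zero]

lemma reach_two (h : Nice R r K) [Nonempty W] (t m : ℕ) (htm : t + m ≤ K)
    (hm : (m : ℝ) ≤ lev K t) : Reach (cone h) (st W K (t + m) (lev K t) m) := by
  induction m with
  | zero => simpa using reach_one h t (by omega)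
  | succ m ih =>
    have h1 := ih (by omega) (by push_cast at hm; linarith)
    have h3 : st W K (t + m) (lev K t) m + st W K (t + m) 0 1 =
        st W K (t + m) (lev K t) ((m : ℝ) + 1) := by
      rw [st_add, add_zero]
    have h4 := Reach.round _ _ (cls W K (K - 1 - (t + m))) h1 (valid_apex (t + m) (by omega)) (by
      rw [h3]
      exact greedy_cls h (t + m) (by omega) _ _ (lev_nonneg _ _) (by push_cast at hm; linarith))
    rw [h3, drain_cls (t + m) (by omega)] at h4
    push_cast
    exact h4

lemma greedy_large (h : Nice R r K) [Nonempty W] (m : ℕ) (hmK : m ≤ K)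
    (hm : (m : ℝ) ≤ lev K (K - m)) (b : ℝ) (hb : GreedySafe (cone h) b) : (m : ℝ) + 1 ≤ b := by
  have h1 := reach_two h (K - m) m (by omega) hm
  exact hb _ _ h1 (valid_apex (K - m + m) (by omega)) none

lemma lev_harmonic (K t : ℕ) (ht : t ≤ K) :
    lev K t + ∑ i ∈ range (K - t), 1 / ((i : ℝ) + 1) = ∑ i ∈ range K, 1 / ((i : ℝ) + 1) := by
  induction t with
  | zero => simp [lev]
  | succ t ih =>
    rw [← ih (by omega)]
    have h1 : K - t = (K - (t + 1)) + 1 := by omega
    unfold lev
    rw [Finset.sum_range_succ, h1, Finset.sum_range_succ]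
    push_cast
    ring

lemma exists_K (m : ℕ) : ∃ n : ℕ, m ≤ 2 ^ n ∧ (m : ℝ) ≤ lev (2 ^ n) (2 ^ n - m) := by
  have h1 := Real.tendsto_sum_range_one_div_nat_succ_atTop
  have h2 : Filter.Tendsto (fun n : ℕ => 2 ^ n) Filter.atTop Filter.atTop :=
    tendsto_pow_atTop_atTop_of_one_lt (by norm_num)
  have h3 := (h1.comp h2).eventually_ge_atTop (2 * m : ℝ)
  have h4 := h2.eventually_ge_atTop m
  obtain ⟨n, hn1, hn2⟩ := (h3.and h4).exists
  refine ⟨n, hn2, ?_⟩
  have h5 := lev_harmonic (2 ^ n) (2 ^ n - m) (by omega)
  have h6 : 2 ^ n - (2 ^ n - m) = m := by omega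
  rw [h6] at h5
  have h7 : ∑ i ∈ range m, 1 / ((i : ℝ) + 1) ≤ m := by
    calc ∑ i ∈ range m, 1 / ((i : ℝ) + 1) ≤ ∑ _i ∈ range m, (1 : ℝ) := by
          apply Finset.sum_le_sum
          intro i _
          rw [div_le_one (by positivity)]
          have : (0 : ℝ) ≤ i := by positivity
          linarith
      _ = m := by simp
  have h8 : (2 * m : ℝ) ≤ ∑ i ∈ range (2 ^ n), 1 / ((i : ℝ) + 1) := hn1
  linarith

end graph

theorem unbounded (C : ℝ) : ∃ (V : Type) (_ : Fintype V) (_ : DecidableEq V) (G : SimpleGraph V),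
    bucket G ≤ 71 ∧ C < gbucket G - bucket G := by
  classical
  obtain ⟨m, hm⟩ := exists_nat_gt (C + 72)
  obtain ⟨n, hn1, hn2⟩ := exists_K (m + 2)
  haveI : Fact (Nat.Prime 2) := ⟨Nat.prime_two⟩
  have hn0 : n ≠ 0 := by
    rintro rfl
    simp at hn1
  let F := GaloisField 2 (n + n)
  haveI : Fintype F := Fintype.ofFinite F
  have hcard : Fintype.card F = 2 ^ n * 2 ^ n := by
    rw [← Nat.card_eq_fintype_card, GaloisField.card 2 (n + n) (by omega), pow_add]
  have hnice := pol_nice F (2 ^ n) hcard
  refine ⟨Option (Fin (2 ^ n) × (Fˣ × F)), inferInstance, inferInstance, cone hnice, ?_⟩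
  have hw : Wins (cone hnice) 72 := wins _ (cone_sparse hnice)
  have h1 : bucket (cone hnice) ≤ 71 := by
    unfold bucket
    have : sInf {b : ℝ | 0 < b ∧ Wins (cone hnice) b} ≤ 72 :=
      csInf_le ⟨0, fun b hb => hb.1.le⟩ ⟨by norm_num, hw⟩
    linarith
  have h2 : (m : ℝ) + 2 ≤ gbucket (cone hnice) := by
    unfold gbucket
    have : ((m : ℝ) + 2) + 1 ≤ sInf {b : ℝ | 0 < b ∧ GreedySafe (cone hnice) b} := by
      apply le_csInf
      · exact ⟨_, by positivity, greedySafe_card _⟩
      · intro b hb
        have := greedy_large hnice (m + 2) hn1 hn2 b hb.2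
        push_cast at this
        exact this
    linarith
  exact ⟨h1, by linarith⟩

end Pool.Agent.Q175.BK
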