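import Pool.Agent.Q175.BK.Defs

/-!
Cinderella keeps all contents at most 72 on graphs all of whose small vertex sets have small
chromatic number.
-/

namespace Pool.Agent.Q175.BK

set_option linter.unusedSectionVars false

open Finset

variable {V : Type} [Fintype V] [DecidableEq V]

/-- every set of at most `(4*8^j)^2` vertices can be coloured with `8*8^j` colours -/
def Sparse (G : SimpleGraph V) : Prop :=
  ∀ (j : ℕ) (U : Finset V), U.card ≤ 16 * 64 ^ j →
    ∃ c : V → ℕ, (∀ v ∈ U, c v < 8 * 8 ^ j) ∧ ∀ u ∈ U, ∀ v ∈ U, G.Adj u v → c u ≠ c v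

/-- length of the periods of scale `j` -/
def T (j : ℕ) : ℕ := 16 * 16 ^ j

lemma T_pos (j : ℕ) : 0 < T j := by unfold T; positivity

lemma T_succ (j : ℕ) : T (j + 1) = 16 * T j := by unfold T; ring

/-- the vertices with much water in period `p` of scale `j` -/
noncomputable def hot (h : ℕ → V → ℝ) (j p : ℕ) : Finset V :=
  univ.filter fun v => (1 / 4 : ℝ) ^ j ≤ ∑ r ∈ Ico (T j * p) (T j * (p + 1)), h r v

lemma card_hot (h : ℕ → V → ℝ) (j p : ℕ)
    (hv : ∀ r ∈ Ico (T j * p) (T j * (p + 1)), ValidMove (h r)) :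
    (hot h j p).card ≤ 16 * 64 ^ j := by
  have h1 : (hot h j p).card * (1 / 4 : ℝ) ^ j ≤
      ∑ v ∈ hot h j p, ∑ r ∈ Ico (T j * p) (T j * (p + 1)), h r v := by
    rw [← nsmul_eq_mul, ← Finset.sum_const]
    apply Finset.sum_le_sum
    intro v hv
    exact (mem_filter.1 hv).2
  have h2 : ∑ v ∈ hot h j p, ∑ r ∈ Ico (T j * p) (T j * (p + 1)), h r v ≤
      ∑ v, ∑ r ∈ Ico (T j * p) (T j * (p + 1)), h r v := by
    apply Finset.sum_le_sum_of_subset_of_nonneg (subset_univ _)
    intro v _ _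
    apply Finset.sum_nonneg
    intro r hr
    exact (hv r hr).1 v
  have h3 : ∑ v, ∑ r ∈ Ico (T j * p) (T j * (p + 1)), h r v = (T j : ℝ) := by
    rw [Finset.sum_comm, Finset.sum_congr rfl fun r hr => (hv r hr).2]
    simp [Nat.card_Ico, Nat.mul_add]
  have h4 : ((hot h j p).card : ℝ) * (1 / 4 : ℝ) ^ j ≤ T j := by linarith
  have h5 : ((hot h j p).card : ℝ) ≤ T j * 4 ^ j := by
    have h6 : ((1 : ℝ) / 4) ^ j * 4 ^ j = 1 := by
      rw [← mul_pow]; norm_num
    calc ((hot h j p).card : ℝ) = (hot h j p).card * (1 / 4 : ℝ) ^ j * 4 ^ j := by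
          rw [mul_assoc, h6, mul_one]
      _ ≤ T j * 4 ^ j := by gcongr
  have h7 : (T j : ℝ) * 4 ^ j = ((16 * 64 ^ j : ℕ) : ℝ) := by
    unfold T
    push_cast
    rw [mul_assoc, ← mul_pow]
    norm_num
  rw [h7] at h5
  exact_mod_cast h5

open Classical in
/-- a good colouring of `U`, at scale `j` -/
noncomputable def col (G : SimpleGraph V) (j : ℕ) (U : Finset V) : V → ℕ :=
  if h : ∃ c : V → ℕ, (∀ v ∈ U, c v < 8 * 8 ^ j) ∧ ∀ u ∈ U, ∀ v ∈ U, G.Adj u v → c u ≠ c v
  then h.choose else fun _ => 0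

open Classical in
/-- the set emptied in round `t`, as a function of the whole sequence of moves -/
noncomputable def pick (G : SimpleGraph V) (h : ℕ → V → ℝ) (t : ℕ) : Finset V :=
  let j := padicValNat 2 t
  let U := hot h j (t / T j - 1)
  if t / T j ≠ 0 ∧
    ∃ c : V → ℕ, (∀ v ∈ U, c v < 8 * 8 ^ j) ∧ ∀ u ∈ U, ∀ v ∈ U, G.Adj u v → c u ≠ c v
  then U.filter fun v => col G j U v = (t % T j) / 2 ^ (j + 1)
  else ∅

lemma pick_indep (G : SimpleGraph V) (h : ℕ → V → ℝ) (t : ℕ) : Indep G (pick G h t) := by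
  intro u hu v hv hadj
  unfold pick at hu hv
  simp only at hu hv
  split_ifs at hu hv with hc
  · obtain ⟨_, hc⟩ := hc
    rw [mem_filter] at hu hv
    have h1 := hc.choose_spec.2 u hu.1 v hv.1 hadj
    apply h1
    have h2 := hu.2
    have h3 := hv.2
    unfold col at h2 h3
    rw [dif_pos hc] at h2 h3
    rw [h2, h3]
  · simp at hu

lemma pick_eq (G : SimpleGraph V) (h : ℕ → V → ℝ) (t j p i : ℕ) (hj : padicValNat 2 t = j)
    (hd : t / T j = p + 1) (hm : (t % T j) / 2 ^ (j + 1) = i)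
    (hc : ∃ c : V → ℕ, (∀ v ∈ hot h j p, c v < 8 * 8 ^ j) ∧
      ∀ u ∈ hot h j p, ∀ v ∈ hot h j p, G.Adj u v → c u ≠ c v) :
    pick G h t = (hot h j p).filter fun v => col G j (hot h j p) v = i := by
  subst hj
  have e : t / T (padicValNat 2 t) - 1 = p := by rw [hd]; rfl
  unfold pick
  simp only
  rw [if_pos ⟨by rw [hd]; exact Nat.succ_ne_zero _, by rw [e]; exact hc⟩, e, hm]

lemma pick_congr (G : SimpleGraph V) (h h' : ℕ → V → ℝ) (t : ℕ)
    (hh : ∀ s ≤ t, h s = h' s) : pick G h t = pick G h' t := by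
  unfold pick
  simp only
  by_cases h0 : t / T (padicValNat 2 t) = 0
  · simp [h0]
  have h1 : hot h (padicValNat 2 t) (t / T (padicValNat 2 t) - 1)
      = hot h' (padicValNat 2 t) (t / T (padicValNat 2 t) - 1) := by
    unfold hot
    apply Finset.filter_congr
    intro v _
    have h2 : ∑ r ∈ Ico (T (padicValNat 2 t) * (t / T (padicValNat 2 t) - 1))
        (T (padicValNat 2 t) * (t / T (padicValNat 2 t) - 1 + 1)), h r v =
        ∑ r ∈ Ico (T (padicValNat 2 t) * (t / T (padicValNat 2 t) - 1))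
        (T (padicValNat 2 t) * (t / T (padicValNat 2 t) - 1 + 1)), h' r v := by
      apply Finset.sum_congr rfl
      intro r hr
      rw [mem_Ico] at hr
      have h3 : t / T (padicValNat 2 t) - 1 + 1 = t / T (padicValNat 2 t) :=
        Nat.sub_add_cancel (Nat.one_le_iff_ne_zero.2 h0)
      rw [h3] at hr
      have h4 := Nat.mul_div_le t (T (padicValNat 2 t))
      rw [hh r (by omega)]
    rw [h2]
  rw [h1]

/-- extends a history by zero moves -/
def ext {t : ℕ} (h : Fin (t + 1) → V → ℝ) : ℕ → V → ℝ :=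
  fun s => if hs : s < t + 1 then h ⟨s, hs⟩ else 0

/-- the strategy -/
noncomputable def strat (G : SimpleGraph V) : Strategy V := fun t h => pick G (ext h) t

lemma strat_eq (G : SimpleGraph V) (a : ℕ → V → ℝ) (t : ℕ) :
    strat G t (fun i : Fin (t + 1) => a i) = pick G a t := by
  apply pick_congr
  intro s hs
  unfold ext
  rw [dif_pos (by omega)]

lemma padic_aux (j m : ℕ) : padicValNat 2 (2 ^ j * (2 * m + 1)) = j := by
  rw [padicValNat.mul (by positivity) (by omega), padicValNat.prime_pow,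
    padicValNat.eq_zero_of_not_dvd (by omega), add_zero]

/-- a hot vertex of period `p` is emptied during period `p + 1` -/
lemma emptied (G : SimpleGraph V) (hG : Sparse G) (a : ℕ → V → ℝ)
    (ha : ∀ t, ValidMove (a t)) (j p : ℕ) (v : V) (hv : v ∈ hot a j p) :
    ∃ r ∈ Ico (T j * (p + 1)) (T j * (p + 2)), v ∈ pick G a r := by
  have hc := hG j (hot a j p) (card_hot a j p fun r _ => ha r)
  set c := col G j (hot a j p) with hcdef
  have hc' : c = hc.choose := by
    rw [hcdef]; unfold col; rw [dif_pos hc]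
  have hcv : c v < 8 * 8 ^ j := by
    rw [hc']; exact hc.choose_spec.1 v hv
  have hT : T j = 2 ^ (j + 1) * (8 * 8 ^ j) := by
    unfold T
    rw [pow_succ]
    have : (16 : ℕ) ^ j = 2 ^ j * 8 ^ j := by rw [← mul_pow]; norm_num
    rw [this]; ring
  have hlt : 2 ^ (j + 1) * c v + 2 ^ j < T j := by
    rw [hT]
    have h1 : 2 ^ (j + 1) * (c v + 1) ≤ 2 ^ (j + 1) * (8 * 8 ^ j) := by gcongr; omega
    have h2 : 2 ^ j < 2 ^ (j + 1) := by rw [pow_succ]; have : 0 < 2 ^ j := by positivity
                                        omega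
    rw [mul_add, mul_one] at h1
    omega
  refine ⟨T j * (p + 1) + (2 ^ (j + 1) * c v + 2 ^ j), ?_, ?_⟩
  · rw [mem_Ico]
    constructor
    · exact Nat.le_add_right _ _
    · have : T j * (p + 2) = T j * (p + 1) + T j := by ring
      omega
  · have hpad : padicValNat 2 (T j * (p + 1) + (2 ^ (j + 1) * c v + 2 ^ j)) = j := by
      have : T j * (p + 1) + (2 ^ (j + 1) * c v + 2 ^ j) =
          2 ^ j * (2 * (8 * 8 ^ j * (p + 1) + c v) + 1) := by
        rw [hT]; ring
      rw [this, padic_aux]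
    have hdiv : (T j * (p + 1) + (2 ^ (j + 1) * c v + 2 ^ j)) / T j = p + 1 := by
      rw [Nat.mul_add_div (T_pos j), Nat.div_eq_of_lt hlt, add_zero]
    have hmod : (T j * (p + 1) + (2 ^ (j + 1) * c v + 2 ^ j)) % T j =
        2 ^ (j + 1) * c v + 2 ^ j := by
      rw [Nat.mul_add_mod, Nat.mod_eq_of_lt hlt]
    have h3 : (2 ^ (j + 1) * c v + 2 ^ j) / 2 ^ (j + 1) = c v := by
      rw [Nat.mul_add_div (by positivity), Nat.div_eq_of_lt, add_zero]
      rw [pow_succ]; have : 0 < 2 ^ j := by positivity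
      omega
    rw [pick_eq G a _ j p (c v) hpad hdiv (by rw [hmod, h3]) hc, mem_filter]
    exact ⟨hv, rfl⟩

open Classical in
/-- the water of round `r` that is still in the bucket `v` in round `t` -/
noncomputable def wat (I : ℕ → Finset V) (a : ℕ → V → ℝ) (v : V) (t r : ℕ) : ℝ :=
  if ∀ s, r ≤ s → s < t → v ∉ I s then a r v else 0

lemma content_eq (s : Strategy V) (I : ℕ → Finset V) (a : ℕ → V → ℝ)
    (hI : ∀ t, s t (fun i : Fin (t + 1) => a i) = I t) (v : V) (t : ℕ) :
    content s a t v + a t v = ∑ r ∈ range (t + 1), wat I a v t r := by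
  induction t with
  | zero => simp [content, wat]
  | succ t ih =>
    rw [Finset.sum_range_succ]
    have h1 : wat I a v (t + 1) (t + 1) = a (t + 1) v := by
      unfold wat
      rw [if_pos]
      intro s h1 h2; omega
    rw [h1]
    congr 1
    simp only [content, drain, hI, Pi.add_apply]
    split_ifs with h
    · symm
      apply Finset.sum_eq_zero
      intro r hr
      rw [mem_range] at hr
      unfold wat
      rw [if_neg]
      intro h2
      exact h2 t (by omega) (by omega) h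
    · rw [ih]
      apply Finset.sum_congr rfl
      intro r hr
      rw [mem_range] at hr
      unfold wat
      congr 1
      apply propext
      constructor
      · intro h2 s h3 h4
        rcases Nat.lt_succ_iff_lt_or_eq.1 h4 with h5 | h5
        · exact h2 s h3 h5
        · rw [h5]; exact h
      · intro h2 s h3 h4
        exact h2 s h3 (by omega)

lemma wat_le (I : ℕ → Finset V) (a : ℕ → V → ℝ) (v : V) (t r : ℕ) (h : 0 ≤ a r v) :
    wat I a v t r ≤ a r v := by
  unfold wat; split_ifs <;> linarith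

lemma valid_le_one (a : V → ℝ) (h : ValidMove a) (v : V) : a v ≤ 1 := by
  rw [← h.2]
  exact Finset.single_le_sum (f := a) (fun i _ => h.1 i) (mem_univ v)

lemma period_le (G : SimpleGraph V) (hG : Sparse G) (a : ℕ → V → ℝ)
    (ha : ∀ t, ValidMove (a t)) (v : V) (t j p : ℕ) (hp : T j * (p + 2) ≤ t) :
    ∑ r ∈ Ico (T j * p) (T j * (p + 1)), wat (pick G a) a v t r ≤ (1 / 4 : ℝ) ^ j := by
  by_cases hv : v ∈ hot a j p
  · obtain ⟨s, hs, hvs⟩ := emptied G hG a ha j p v hv
    rw [mem_Ico] at hs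
    have : ∑ r ∈ Ico (T j * p) (T j * (p + 1)), wat (pick G a) a v t r = 0 := by
      apply Finset.sum_eq_zero
      intro r hr
      rw [mem_Ico] at hr
      unfold wat
      rw [if_neg]
      intro h
      exact h s (by omega) (by omega) hvs
    rw [this]; positivity
  · have h1 : ∑ r ∈ Ico (T j * p) (T j * (p + 1)), a r v < (1 / 4 : ℝ) ^ j := by
      by_contra h
      exact hv (mem_filter.2 ⟨mem_univ _, not_lt.1 h⟩)
    refine le_trans (Finset.sum_le_sum fun r _ => wat_le _ a v t r ((ha r).1 v)) h1.le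

lemma periods_le (f : ℕ → ℝ) (L m : ℕ) (δ : ℝ) (k : ℕ)
    (h : ∀ p, m ≤ p → p < m + k → ∑ r ∈ Ico (L * p) (L * (p + 1)), f r ≤ δ) :
    ∑ r ∈ Ico (L * m) (L * (m + k)), f r ≤ k * δ := by
  induction k with
  | zero => simp
  | succ k ih =>
    have h1 := ih fun p h1 h2 => h p h1 (by omega)
    have h2 := h (m + k) (by omega) (by omega)
    have h3 : ∑ r ∈ Ico (L * m) (L * (m + (k + 1))), f r =
        ∑ r ∈ Ico (L * m) (L * (m + k)), f r +
        ∑ r ∈ Ico (L * (m + k)) (L * (m + k + 1)), f r := by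
      rw [Finset.sum_Ico_consecutive]
      · rfl
      · exact Nat.mul_le_mul_left _ (by omega)
      · exact Nat.mul_le_mul_left _ (by omega)
    rw [h3]; push_cast; linarith

lemma tail_le (G : SimpleGraph V) (hG : Sparse G) (a : ℕ → V → ℝ)
    (ha : ∀ t, ValidMove (a t)) (v : V) (t J : ℕ) :
    ∑ r ∈ Ico (T J * (t / T J - 1)) (t + 1), wat (pick G a) a v t r ≤
      32 + 30 * ∑ j ∈ range J, (1 / 4 : ℝ) ^ j := by
  induction J with
  | zero =>
    have h1 : ∑ r ∈ Ico (T 0 * (t / T 0 - 1)) (t + 1), wat (pick G a) a v t r ≤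
        ∑ r ∈ Ico (T 0 * (t / T 0 - 1)) (t + 1), (1 : ℝ) := by
      apply Finset.sum_le_sum
      intro r _
      exact le_trans (wat_le _ a v t r ((ha r).1 v)) (valid_le_one _ (ha r) v)
    have h2 : t + 1 - T 0 * (t / T 0 - 1) ≤ 32 := by
      have : T 0 = 16 := by simp [T]
      rw [this]; omega
    simp only [Finset.sum_const, Nat.card_Ico, nsmul_eq_mul, mul_one] at h1
    have h3 : ((t + 1 - T 0 * (t / T 0 - 1) : ℕ) : ℝ) ≤ 32 := by exact_mod_cast h2
    simp only [range_zero, Finset.sum_empty, mul_zero, add_zero]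
    linarith
  | succ J ih =>
    have hP : t / T (J + 1) = t / T J / 16 := by
      rw [T_succ, mul_comm, ← Nat.div_div_eq_div_mul]
    obtain ⟨P, hPdef⟩ : ∃ P, P = t / T J := ⟨_, rfl⟩
    rw [← hPdef] at hP ih
    have hm : T (J + 1) * (t / T (J + 1) - 1) = T J * (16 * (P / 16 - 1)) := by
      rw [hP, T_succ]; ring
    rw [hm]
    have hle : 16 * (P / 16 - 1) ≤ P - 1 := by omega
    obtain ⟨k, hk⟩ := Nat.exists_eq_add_of_le hle
    have hk30 : k ≤ 30 := by omega
    have htop : T J * (P - 1) ≤ t + 1 := by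
      have h1 := Nat.mul_div_le t (T J)
      rw [← hPdef] at h1
      have h2 : T J * (P - 1) ≤ T J * P := Nat.mul_le_mul_left _ (by omega)
      omega
    rw [← Finset.sum_Ico_consecutive _ (show T J * (16 * (P / 16 - 1)) ≤ T J * (P - 1) from
      Nat.mul_le_mul_left _ hle) htop, Finset.sum_range_succ]
    have h4 : ∑ r ∈ Ico (T J * (16 * (P / 16 - 1))) (T J * (P - 1)), wat (pick G a) a v t r ≤
        k * (1 / 4 : ℝ) ^ J := by
      rw [hk]
      apply periods_le
      intro p hp1 hp2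
      apply period_le G hG a ha
      have h1 := Nat.mul_div_le t (T J)
      rw [← hPdef] at h1
      have h2 : T J * (p + 2) ≤ T J * P := Nat.mul_le_mul_left _ (by omega)
      omega
    have h5 : (k : ℝ) * (1 / 4 : ℝ) ^ J ≤ 30 * (1 / 4 : ℝ) ^ J := by
      gcongr; exact_mod_cast hk30
    linarith

theorem wins (G : SimpleGraph V) (hG : Sparse G) : Wins G 72 := by
  refine ⟨strat G, fun t h => pick_indep G _ t, ?_⟩
  intro a ha t v
  rw [content_eq (strat G) (pick G a) a (strat_eq G a) v t]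
  have h1 := tail_le G hG a ha v t t
  have h2 : t / T t = 0 := by
    apply Nat.div_eq_of_lt
    unfold T
    have h9 : t < 16 ^ t := Nat.lt_pow_self (by norm_num)
    omega
  rw [h2] at h1
  simp only [Nat.zero_sub, mul_zero, Nat.Ico_zero_eq_range] at h1
  have h3 : ∑ j ∈ range t, (1 / 4 : ℝ) ^ j ≤ 4 / 3 := by
    rw [geom_sum_eq (by norm_num)]
    have h4 : (0 : ℝ) ≤ (1 / 4) ^ t := by positivity
    rw [div_le_iff_of_neg (by norm_num)]
    linarith
  linarith

end Pool.Agent.Q175.BK
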